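import Pool.Agent.TSC.Fin

/-!
# TSC/Small: thin open sets in countably paracompact spaces
-/

open Set Topology TopologicalSpace

namespace Pool.Agent.TSC

universe u

variable {X : Type u} [TopologicalSpace X]

/-- In a normal countably paracompact space: if for all `k` the set `H ∩ U k` is the union of a part which is contained
in an `F_σ` subset of `U k`, and of a relatively open part all whose closed subsets are tame, then `H` is tame. -/
theorem mt_small [T4Space X] [LocallyCompactSpace X] [LocallyConnectedSpace X]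
    (hl : ∀ x : X, ∃ V : Set X, IsOpen V ∧ x ∈ V ∧ SecondCountableTopology V)
    {U : ℕ → Set X} (hU : ∀ k, IsOpen (U k)) (hsep : ∀ x y, x ≠ y → ∃ k, x ∈ U k ∧ y ∉ U k)
    (hcp : CtblyParacompact X) {H : Set X} (hH : IsClosed H)
    (hV : ∀ k, ∃ V : Set X, IsOpen V ∧ (∀ F, IsClosed F → F ⊆ H ∩ V → Mt F) ∧
      ∃ P : ℕ → Set X, (∀ j, IsClosed (P j)) ∧ (∀ j, P j ⊆ U k) ∧ (H ∩ U k) \ V ⊆ ⋃ j, P j) :
    Mt H := by
  choose V hVo hVt P hPc hPU hPs using hV
  -- the part outside of the thin sets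
  have h1 : Mt (H \ ⋃ k, V k) := by
    apply tame hl hU hsep
    intro k
    refine ⟨P k, hPc k, hPU k, ?_⟩
    rintro x ⟨⟨hx1, hx2⟩, hx3⟩
    exact hPs k ⟨⟨hx1, hx3⟩, fun h => hx2 (mem_iUnion.2 ⟨k, h⟩)⟩
  refine mt_of_diff' hl h1 fun O hO hHO => ?_
  -- finite unions of thin sets are thin
  have hfin : ∀ (m : ℕ) (F : Set X), IsClosed F → F ⊆ H → F ⊆ ⋃ k < m, V k → Mt F := by
    intro m
    induction m with
    | zero =>
      intro F _ _ hF
      refine mt_empty.mono ?_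
      intro x hx
      have := hF hx
      simp at this
    | succ m ih =>
      intro F hF hFH hFV
      have h2 : Mt (F \ ⋃ k < m, V k) := by
        refine hVt m _ (hF.sdiff (isOpen_biUnion fun k _ => hVo k)) ?_
        rintro x ⟨hx1, hx2⟩
        refine ⟨hFH hx1, ?_⟩
        obtain ⟨i, hi, hxi⟩ := mem_iUnion₂.1 (hFV hx1)
        rcases Nat.lt_succ_iff_lt_or_eq.1 hi with h | h
        · exact absurd (mem_iUnion₂.2 ⟨i, h, hxi⟩) hx2
        · rw [← h]
          exact hxi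
      refine mt_of_diff' hl h2 fun Q hQ hFQ => ?_
      refine ih _ (hF.sdiff hQ) (sdiff_subset.trans hFH) ?_
      rintro x ⟨hx1, hx2⟩
      by_contra hn
      exact hx2 (hFQ ⟨hx1, hn⟩)
  have hK : H \ O ⊆ ⋃ k, V k := by
    rintro x ⟨hx1, hx2⟩
    by_contra hn
    exact hx2 (hHO ⟨hx1, hn⟩)
  have hKc : IsClosed (H \ O) := hH.sdiff hO
  obtain ⟨W, hW1, hW2, hW3⟩ := cp_expand hcp
    (H := fun n => (H \ O) \ ⋃ k < n, V k)
    (fun n => hKc.sdiff (isOpen_biUnion fun k _ => hVo k))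
    (fun a b hab => by
      rintro x ⟨hx1, hx2⟩
      refine ⟨hx1, fun h => hx2 ?_⟩
      obtain ⟨i, hi, hxi⟩ := mem_iUnion₂.1 h
      exact mem_iUnion₂.2 ⟨i, lt_of_lt_of_le hi hab, hxi⟩)
    (by
      rw [eq_empty_iff_forall_notMem]
      intro x hx
      obtain ⟨k, hk⟩ := mem_iUnion.1 (hK (mem_iInter.1 hx 0).1)
      exact (mem_iInter.1 hx (k + 1)).2 (mem_iUnion₂.2 ⟨k, Nat.lt_succ_self k, hk⟩))
  have h2 : ∀ n, Mt ((H \ O) \ W n) := by
    intro n
    refine hfin n _ (hKc.sdiff (hW1 n)) (sdiff_subset.trans sdiff_subset) ?_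
    rintro x ⟨hx1, hx2⟩
    by_contra hn
    exact hx2 (hW2 n ⟨hx1, hn⟩)
  refine (mt_iUnion hl h2).mono ?_
  intro x hx
  by_contra hn
  have h3 : x ∈ ⋂ i, closure (W i) := by
    refine mem_iInter.2 fun n => subset_closure ?_
    by_contra h4
    exact hn (mem_iUnion.2 ⟨n, hx, h4⟩)
  rw [hW3] at h3
  exact h3

end Pool.Agent.TSC
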