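import Pool.Agent.TSC.Main

/-!
# TSC/Cor: consequences
-/

open Set Topology TopologicalSpace

namespace Pool.Agent.TSC

universe u

variable {X : Type u} [TopologicalSpace X]

/-- Countable paracompactness. -/
def CtblyParacompact (X : Type u) [TopologicalSpace X] : Prop :=
  ∀ u : ℕ → Set X, (∀ n, IsOpen (u n)) → ⋃ n, u n = univ →
    ∃ (β : Type u) (v : β → Set X), (∀ b, IsOpen (v b)) ∧ ⋃ b, v b = univ ∧ LocallyFinite v ∧
      ∀ b, ∃ n, v b ⊆ u n

theorem Mt.mono {S T : Set X} (h : S ⊆ T) (hT : Mt T) : Mt S := by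
  obtain ⟨O, h1, h2, h3⟩ := hT
  exact ⟨O, h1, h.trans h2, h3⟩

theorem Mt.metrizable {S : Set X} (h : Mt S) : MetrizableSpace S := by
  obtain ⟨O, h1, h2, h3⟩ := h
  exact met_mono h2 h3

theorem mt_empty : Mt (∅ : Set X) := by
  refine ⟨∅, isOpen_empty, Subset.rfl, ?_⟩
  infer_instance

theorem mt_iUnion [T3Space X]
    (hl : ∀ x : X, ∃ V : Set X, IsOpen V ∧ x ∈ V ∧ SecondCountableTopology V) {Λ : Type*}
    [Countable Λ] {S : Λ → Set X} (h : ∀ n, Mt (S n)) : Mt (⋃ n, S n) := by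
  choose O h1 h2 h3 using h
  exact ⟨⋃ n, O n, isOpen_iUnion h1, iUnion_mono h2, metrizable_iUnion hl h1 h3⟩

theorem mt_union [T3Space X]
    (hl : ∀ x : X, ∃ V : Set X, IsOpen V ∧ x ∈ V ∧ SecondCountableTopology V) {S T : Set X}
    (hS : Mt S) (hT : Mt T) : Mt (S ∪ T) := by
  obtain ⟨O, h1, h2, h3⟩ := hS
  obtain ⟨O', h1', h2', h3'⟩ := hT
  exact ⟨O ∪ O', h1.union h1', union_subset_union h2 h2', metrizable_union hl h1 h1' h3 h3'⟩

/-- If `S` minus an open metrizable neighbourhood of a set is metrizable ... -/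
theorem mt_of_diff [T3Space X]
    (hl : ∀ x : X, ∃ V : Set X, IsOpen V ∧ x ∈ V ∧ SecondCountableTopology V) {S O : Set X}
    (hO : IsOpen O) (hm : MetrizableSpace O) (h : Mt (S \ O)) : Mt S := by
  have h1 : Mt O := ⟨O, hO, Subset.rfl, hm⟩
  exact (mt_union hl h h1).mono (by rw [sdiff_union_self]; exact subset_union_left)

/-- **Closed metrizable subsets.** -/
theorem mt_of_closed [T4Space X] [LocallyCompactSpace X] [LocallyConnectedSpace X]
    (hl : ∀ x : X, ∃ V : Set X, IsOpen V ∧ x ∈ V ∧ SecondCountableTopology V)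
    {U : ℕ → Set X} (hU : ∀ k, IsOpen (U k)) (hsep : ∀ x y, x ≠ y → ∃ k, x ∈ U k ∧ y ∉ U k)
    {H : Set X} (hH : IsClosed H) (hm : MetrizableSpace H) : Mt H := by
  apply tame hl hU hsep
  intro k
  let _ := metrizableSpaceMetric H
  obtain ⟨F, hF1, hF2, hF3, -⟩ :=
    IsOpen.exists_iUnion_isClosed ((hU k).preimage (continuous_subtype_val (p := fun x => x ∈ H)))
  refine ⟨fun j => Subtype.val '' F j, fun j => hH.isClosedMap_subtype_val _ (hF1 j), ?_, ?_⟩
  · rintro j _ ⟨y, hy, rfl⟩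
    exact hF2 j hy
  · rintro x ⟨hxH, hxU⟩
    have h1 : (⟨x, hxH⟩ : H) ∈ ⋃ n, F n := by
      rw [hF3]
      exact hxU
    obtain ⟨n, hn⟩ := mem_iUnion.1 h1
    exact mem_iUnion.2 ⟨n, ⟨x, hxH⟩, hn, rfl⟩

/-- **Finite filtrations.** -/
theorem mt_filtration [T4Space X] [LocallyCompactSpace X] [LocallyConnectedSpace X]
    (hl : ∀ x : X, ∃ V : Set X, IsOpen V ∧ x ∈ V ∧ SecondCountableTopology V)
    {U : ℕ → Set X} (hU : ∀ k, IsOpen (U k)) (hsep : ∀ x y, x ≠ y → ∃ k, x ∈ U k ∧ y ∉ U k) :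
    ∀ (m : ℕ) (H : ℕ → Set X), (∀ i, IsClosed (H i)) →
      (∀ i < m, MetrizableSpace (H i \ H (i + 1) : Set X)) → H m = ∅ → Mt (H 0) := by
  intro m
  induction m with
  | zero =>
    intro H _ _ h
    rw [h]
    exact mt_empty
  | succ m ih =>
    intro H hc hm hend
    obtain ⟨O, hO1, hO2, hO3⟩ := ih (fun i => H (i + 1)) (fun i => hc _)
      (fun i hi => hm (i + 1) (by omega)) hend
    obtain ⟨W, hW1, hW2, hW3⟩ := normal_exists_closure_subset (hc 1) hO1 hO2
    refine mt_of_diff hl hO1 hO3 ?_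
    have h1 : Mt (H 0 \ W) := by
      apply mt_of_closed hl hU hsep ((hc 0).sdiff hW1)
      exact met_mono (sdiff_subset_sdiff_right hW2) (hm 0 (by omega))
    exact h1.mono (sdiff_subset_sdiff_right (subset_closure.trans hW3))

/-- Open expansions of decreasing sequences of closed sets with empty intersection. -/
theorem cp_expand (hcp : CtblyParacompact X) {H : ℕ → Set X} (hc : ∀ i, IsClosed (H i))
    (ha : Antitone H) (he : ⋂ i, H i = ∅) :
    ∃ W : ℕ → Set X, (∀ i, IsOpen (W i)) ∧ (∀ i, H i ⊆ W i) ∧ ⋂ i, closure (W i) = ∅ := by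
  have hcov : ⋃ n, (H n)ᶜ = univ := by
    rw [← compl_iInter, he, compl_empty]
  obtain ⟨β, v, hv1, hv2, hv3, hv4⟩ := hcp (fun n => (H n)ᶜ) (fun n => (hc n).isOpen_compl) hcov
  choose i hi using hv4
  refine ⟨fun n => ⋃ b ∈ {b | n < i b}, v b, fun n => isOpen_biUnion fun b _ => hv1 b, ?_, ?_⟩
  · intro n x hx
    have h1 : x ∈ ⋃ b, v b := by rw [hv2]; trivial
    obtain ⟨b, hb⟩ := mem_iUnion.1 h1
    refine mem_iUnion₂.2 ⟨b, ?_, hb⟩
    by_contra hn
    have hn' : i b ≤ n := not_lt.1 hn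
    exact hi b hb (ha hn' hx)
  · rw [eq_empty_iff_forall_notMem]
    intro x hx
    obtain ⟨t, ht, hfin⟩ := hv3 x
    obtain ⟨N, hN⟩ := (hfin.image i).bddAbove
    have h1 := mem_iInter.1 hx N
    rw [mem_closure_iff_nhds] at h1
    obtain ⟨y, hyt, hy⟩ := h1 t ht
    obtain ⟨b, hb, hyb⟩ := mem_iUnion₂.1 hy
    have h2 : i b ≤ N := hN ⟨b, ⟨y, hyb, hyt⟩, rfl⟩
    have h3 : N < i b := hb
    omega

/-- **Infinite filtrations** in countably paracompact spaces. -/
theorem mt_filtration_inf [T4Space X] [LocallyCompactSpace X] [LocallyConnectedSpace X]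
    (hl : ∀ x : X, ∃ V : Set X, IsOpen V ∧ x ∈ V ∧ SecondCountableTopology V)
    {U : ℕ → Set X} (hU : ∀ k, IsOpen (U k)) (hsep : ∀ x y, x ≠ y → ∃ k, x ∈ U k ∧ y ∉ U k)
    (hcp : CtblyParacompact X) {H : ℕ → Set X} (hc : ∀ i, IsClosed (H i)) (ha : Antitone H)
    (he : ⋂ i, H i = ∅) (hm : ∀ i, MetrizableSpace (H i \ H (i + 1) : Set X)) : Mt (H 0) := by
  obtain ⟨W, hW1, hW2, hW3⟩ := cp_expand hcp hc ha he
  have h1 : ∀ n, Mt (H 0 \ W n) := by
    intro n
    have h2 := mt_filtration hl hU hsep n (fun i => H i \ W n) (fun i => (hc i).sdiff (hW1 n))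
      (fun i _ => met_mono (by
        rintro x ⟨⟨h3, h4⟩, h5⟩
        exact ⟨h3, fun h6 => h5 ⟨h6, h4⟩⟩) (hm i)) (by rw [sdiff_eq_empty]; exact hW2 n)
    exact h2
  have h2 := mt_iUnion hl h1
  refine h2.mono ?_
  intro x hx
  by_contra hn
  have h3 : x ∈ ⋂ i, closure (W i) := by
    refine mem_iInter.2 fun n => subset_closure ?_
    by_contra h4
    exact hn (mem_iUnion.2 ⟨n, hx, h4⟩)
  rw [hW3] at h3
  exact h3

/-- **Boundaries.** -/
theorem mt_frontier [T4Space X] [LocallyCompactSpace X] [LocallyConnectedSpace X]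
    (hl : ∀ x : X, ∃ V : Set X, IsOpen V ∧ x ∈ V ∧ SecondCountableTopology V)
    {U : ℕ → Set X} (hU : ∀ k, IsOpen (U k)) (hsep : ∀ x y, x ≠ y → ∃ k, x ∈ U k ∧ y ∉ U k)
    {H : Set X} (hH : IsClosed H) (hm : ∀ k, MetrizableSpace (H ∩ frontier (U k) : Set X)) :
    Mt H := by
  have h1 : ∀ k, Mt (H ∩ frontier (U k)) := fun k =>
    mt_of_closed hl hU hsep (hH.inter isClosed_frontier) (hm k)
  obtain ⟨O, hO1, hO2, hO3⟩ := mt_iUnion hl h1
  refine mt_of_diff hl hO1 hO3 (tame hl hU hsep ?_)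
  intro k
  refine ⟨fun _ => (H \ O) ∩ closure (U k), fun _ => (hH.sdiff hO1).inter isClosed_closure, ?_, ?_⟩
  · rintro _ x ⟨⟨hxH, hxO⟩, hxU⟩
    by_contra hn
    apply hxO
    refine hO2 (mem_iUnion.2 ⟨k, hxH, ?_⟩)
    rw [(hU k).frontier_eq]
    exact ⟨hxU, hn⟩
  · rintro x ⟨hx, hxU⟩
    exact mem_iUnion.2 ⟨0, hx, subset_closure hxU⟩

/-- **Disjoint closed sets** in countably paracompact spaces: if of any two disjoint closed subsets
of the closed set `H` one is contained in an open metrizable set, then so is `H`. -/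
theorem mt_disjoint [T4Space X] [LocallyCompactSpace X] [LocallyConnectedSpace X]
    (hl : ∀ x : X, ∃ V : Set X, IsOpen V ∧ x ∈ V ∧ SecondCountableTopology V)
    {U : ℕ → Set X} (hU : ∀ k, IsOpen (U k)) (hsep : ∀ x y, x ≠ y → ∃ k, x ∈ U k ∧ y ∉ U k)
    (hcp : CtblyParacompact X) {H : Set X} (hH : IsClosed H)
    (h : ∀ A B : Set X, IsClosed A → IsClosed B → A ⊆ H → B ⊆ H → Disjoint A B → Mt A ∨ Mt B) :
    Mt H := by
  by_contra hH0
  -- intersections of two members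
  have hint : ∀ A B : Set X, IsClosed A → IsClosed B → A ⊆ H → B ⊆ H → ¬ Mt A → ¬ Mt B →
      ¬ Mt (A ∩ B) := by
    intro A B hA hB hAH hBH hnA hnB hAB
    obtain ⟨O, hO1, hO2, hO3⟩ := hAB
    have h1 : Disjoint (A \ O) (B \ O) := by
      rw [Set.disjoint_left]
      rintro x ⟨hxA, hxO⟩ ⟨hxB, -⟩
      exact hxO (hO2 ⟨hxA, hxB⟩)
    rcases h (A \ O) (B \ O) (hA.sdiff hO1) (hB.sdiff hO1) (sdiff_subset.trans hAH)
      (sdiff_subset.trans hBH) h1 with h2 | h2
    · exact hnA (mt_of_diff hl hO1 hO3 h2)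
    · exact hnB (mt_of_diff hl hO1 hO3 h2)
  -- decreasing intersections
  have hdec : ∀ K : ℕ → Set X, (∀ n, IsClosed (K n)) → Antitone K → (∀ n, K n ⊆ H) →
      (∀ n, ¬ Mt (K n)) → ¬ Mt (⋂ n, K n) := by
    intro K hK1 hK2 hK3 hK4 hmt
    obtain ⟨O, hO1, hO2, hO3⟩ := hmt
    have hL4 : ∀ n, ¬ Mt (K n \ O) := fun n hn => hK4 n (mt_of_diff hl hO1 hO3 hn)
    have hL0 : ⋂ n, (K n \ O) = ∅ := by
      rw [eq_empty_iff_forall_notMem]
      intro x hx
      have h1 : x ∈ ⋂ n, K n := mem_iInter.2 fun n => (mem_iInter.1 hx n).1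
      exact (mem_iInter.1 hx 0).2 (hO2 h1)
    obtain ⟨W, hW1, hW2, hW3⟩ := cp_expand hcp (fun n => (hK1 n).sdiff hO1)
      (fun a b hab => sdiff_subset_sdiff_left (hK2 hab)) hL0
    have h1 : ∀ n, Mt (H \ W n) := by
      intro n
      have h2 : Disjoint (H \ W n) (K n \ O) := by
        rw [Set.disjoint_left]
        rintro x ⟨-, hxW⟩ hxL
        exact hxW (hW2 n hxL)
      rcases h (H \ W n) (K n \ O) (hH.sdiff (hW1 n)) ((hK1 n).sdiff hO1) sdiff_subset
        (sdiff_subset.trans (hK3 n)) h2 with h3 | h3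
      · exact h3
      · exact absurd h3 (hL4 n)
    apply hH0
    refine (mt_iUnion hl h1).mono ?_
    intro x hx
    by_contra hn
    have h3 : x ∈ ⋂ i, closure (W i) := by
      refine mem_iInter.2 fun n => subset_closure ?_
      by_contra h4
      exact hn (mem_iUnion.2 ⟨n, hx, h4⟩)
    rw [hW3] at h3
    exact h3
  -- the choice of a member for each `k`
  have hk : ∀ k, ∃ N : Set X, IsClosed N ∧ N ⊆ H ∧ ¬ Mt N ∧ (N ⊆ U k ∨ Disjoint N (U k)) := by
    intro k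
    by_cases h1 : Mt (H \ U k)
    · obtain ⟨O, hO1, hO2, hO3⟩ := h1
      refine ⟨H \ O, hH.sdiff hO1, sdiff_subset, fun h2 => hH0 (mt_of_diff hl hO1 hO3 h2),
        Or.inl ?_⟩
      rintro x ⟨hxH, hxO⟩
      by_contra hn
      exact hxO (hO2 ⟨hxH, hn⟩)
    · exact ⟨H \ U k, hH.sdiff (hU k), sdiff_subset, h1, Or.inr disjoint_sdiff_left⟩
  choose N hN1 hN2 hN3 hN4 using hk
  obtain ⟨K, hK0, hKs⟩ : ∃ K : ℕ → Set X, K 0 = N 0 ∧ ∀ n, K (n + 1) = K n ∩ N (n + 1) :=
    ⟨fun n => Nat.rec (N 0) (fun m S => S ∩ N (m + 1)) n, rfl, fun n => rfl⟩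
  have hK : ∀ n, IsClosed (K n) ∧ K n ⊆ H ∧ ¬ Mt (K n) ∧ K n ⊆ N n := by
    intro n
    induction n with
    | zero =>
      rw [hK0]
      exact ⟨hN1 0, hN2 0, hN3 0, Subset.rfl⟩
    | succ n ih =>
      obtain ⟨i1, i2, i3, i4⟩ := ih
      rw [hKs]
      exact ⟨i1.inter (hN1 _), inter_subset_left.trans i2,
        hint _ _ i1 (hN1 _) i2 (hN2 _) i3 (hN3 _), inter_subset_right⟩
  have hKa : Antitone K := antitone_nat_of_succ_le fun n => by
    rw [hKs]
    exact inter_subset_left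
  have hfin := hdec K (fun n => (hK n).1) hKa (fun n => (hK n).2.1) (fun n => (hK n).2.2.1)
  apply hfin
  -- the intersection has at most one point
  have hsub : (⋂ n, K n).Subsingleton := by
    intro x hx y hy
    by_contra hxy
    obtain ⟨k, hk1, hk2⟩ := hsep x y hxy
    have hx' : x ∈ N k := (hK k).2.2.2 (mem_iInter.1 hx k)
    have hy' : y ∈ N k := (hK k).2.2.2 (mem_iInter.1 hy k)
    rcases hN4 k with h1 | h1
    · exact hk2 (h1 hy')
    · exact (Set.disjoint_left.1 h1 hx') hk1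
  have h1 : Subsingleton ↥(⋂ n, K n) := hsub.coe_sort
  have h2 : DiscreteTopology ↥(⋂ n, K n) := inferInstance
  have h3 : MetrizableSpace ↥(⋂ n, K n) := inferInstance
  exact mt_of_closed hl hU hsep (isClosed_iInter fun n => (hK n).1) h3

/-- **Closed discrete sets** can be separated by disjoint open sets. -/
theorem separate_discrete [T4Space X] [LocallyCompactSpace X] [LocallyConnectedSpace X]
    (hl : ∀ x : X, ∃ V : Set X, IsOpen V ∧ x ∈ V ∧ SecondCountableTopology V)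
    {U : ℕ → Set X} (hU : ∀ k, IsOpen (U k)) (hsep : ∀ x y, x ≠ y → ∃ k, x ∈ U k ∧ y ∉ U k)
    {D : Set X} (hD : IsClosed D) (hd : DiscreteTopology D) :
    ∃ V : D → Set X, (∀ d, IsOpen (V d)) ∧ (∀ d, d.1 ∈ V d) ∧ Pairwise fun a b => Disjoint (V a) (V b) := by
  obtain ⟨O, hO1, hO2, hO3⟩ := mt_of_closed hl hU hsep hD inferInstance
  let _ := metrizableSpaceMetric O
  let i : D → O := fun d => ⟨d.1, hO2 d.2⟩
  have hiD : IsEmbedding i := by
    refine IsEmbedding.of_comp (by fun_prop) continuous_subtype_val ?_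
    exact IsEmbedding.subtypeVal
  have hε : ∀ d : D, ∃ ε : ℝ, 0 < ε ∧ ∀ d' : D, dist (i d) (i d') < ε → d' = d := by
    intro d
    have h1 : ({d} : Set D) ∈ 𝓝 d := (isOpen_discrete {d}).mem_nhds rfl
    rw [hiD.nhds_eq_comap, Filter.mem_comap] at h1
    obtain ⟨t, ht, hts⟩ := h1
    obtain ⟨ε, hε, hεt⟩ := Metric.mem_nhds_iff.1 ht
    refine ⟨ε, hε, fun d' hd' => hts (hεt ?_)⟩
    rw [Metric.mem_ball, dist_comm]
    exact hd'
  choose ε hε0 hε using hε
  refine ⟨fun d => Subtype.val '' Metric.ball (i d) (ε d / 2),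
    fun d => hO1.isOpenMap_subtype_val _ Metric.isOpen_ball, fun d =>
      ⟨i d, Metric.mem_ball_self (half_pos (hε0 d)), rfl⟩, ?_⟩
  intro a b hab
  rw [Set.disjoint_left]
  rintro _ ⟨x, hx, rfl⟩ ⟨y, hy, hxy⟩
  have h1 : y = x := Subtype.ext hxy
  subst h1
  rw [Metric.mem_ball] at hx hy
  rcases le_total (ε a) (ε b) with h2 | h2
  · apply hab
    refine hε b a ?_
    calc dist (i b) (i a) ≤ dist (i b) y + dist y (i a) := dist_triangle _ _ _
      _ < ε b / 2 + ε a / 2 := by rw [dist_comm (i b) y]; exact add_lt_add hy hx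
      _ ≤ ε b := by linarith
  · apply hab
    symm
    refine hε a b ?_
    calc dist (i a) (i b) ≤ dist (i a) y + dist y (i b) := dist_triangle _ _ _
      _ < ε a / 2 + ε b / 2 := by rw [dist_comm (i a) y]; exact add_lt_add hx hy
      _ ≤ ε a := by linarith

/-- Closed discrete subsets of the closure of a countable set are countable. -/
theorem countable_discrete [T4Space X] [LocallyCompactSpace X] [LocallyConnectedSpace X]
    (hl : ∀ x : X, ∃ V : Set X, IsOpen V ∧ x ∈ V ∧ SecondCountableTopology V)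
    {U : ℕ → Set X} (hU : ∀ k, IsOpen (U k)) (hsep : ∀ x y, x ≠ y → ∃ k, x ∈ U k ∧ y ∉ U k)
    {A D : Set X} (hA : A.Countable) (hDA : D ⊆ closure A) (hD : IsClosed D)
    (hd : DiscreteTopology D) : D.Countable := by
  obtain ⟨V, hV1, hV2, hV3⟩ := separate_discrete hl hU hsep hD hd
  have h1 : ∀ d : D, ∃ a ∈ A, a ∈ V d := by
    intro d
    obtain ⟨a, ha1, ha2⟩ := mem_closure_iff.1 (hDA d.2) (V d) (hV1 d) (hV2 d)
    exact ⟨a, ha2, ha1⟩
  choose f hf1 hf2 using h1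
  have h2 : Function.Injective (fun d => (⟨f d, hf1 d⟩ : A)) := by
    intro d d' h
    by_contra hne
    have h3 : f d = f d' := congrArg Subtype.val h
    have h4 := hf2 d'
    rw [← h3] at h4
    exact (Set.disjoint_left.1 (hV3 hne) (hf2 d)) h4
  have := hA.to_subtype
  exact h2.countable

end Pool.Agent.TSC
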