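import Pool.Agent.TSC.Mfd

/-!
Let `X` be a normal, countably paracompact manifold with a countable `T₁`-separating open cover `𝒰`. Every closed
nonmetrizable subset of `X` contains two disjoint closed nonmetrizable subsets.
-/

open Set Topology TopologicalSpace

namespace Pool.Agent.TSC.DisjointClosed

universe u

theorem result {n : ℕ} {X : Type u} [TopologicalSpace X] [T2Space X] [NormalSpace X]
    [ChartedSpace (EuclideanSpace ℝ (Fin n)) X]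
    (hcp : ∀ u : ℕ → Set X, (∀ n, IsOpen (u n)) → ⋃ n, u n = univ →
      ∃ (β : Type u) (v : β → Set X), (∀ b, IsOpen (v b)) ∧ ⋃ b, v b = univ ∧ LocallyFinite v ∧
        ∀ b, ∃ n, v b ⊆ u n)
    (𝒰 : Set (Set X)) (hcount : 𝒰.Countable)
    (hopen : ∀ U ∈ 𝒰, IsOpen U) (_hcover : ⋃₀ 𝒰 = univ)
    (hsep : ∀ x y : X, x ≠ y → ∃ U ∈ 𝒰, x ∈ U ∧ y ∉ U)
    (H : Set X) (hH : IsClosed H) (hM : ¬ MetrizableSpace H) :
    ∃ A B : Set X, IsClosed A ∧ IsClosed B ∧ A ⊆ H ∧ B ⊆ H ∧ Disjoint A B ∧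
      ¬ MetrizableSpace A ∧ ¬ MetrizableSpace B := by
  have := Pool.Agent.TSC.Mfd_lc (X := X) n
  have := Pool.Agent.TSC.Mfd_lcn (X := X) n
  obtain ⟨U, hU1, hU2, -⟩ := Pool.Agent.TSC.Mfd_cover hcount hopen hsep
  by_contra hn
  apply hM
  refine (Pool.Agent.TSC.mt_disjoint (Pool.Agent.TSC.Mfd_hl n) hU1 hU2 hcp hH ?_).metrizable
  intro A B hA hB hAH hBH hd
  by_contra h
  push Not at h
  apply hn
  refine ⟨A, B, hA, hB, hAH, hBH, hd, ?_, ?_⟩
  · intro h1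
    exact h.1 (Pool.Agent.TSC.mt_of_closed (Pool.Agent.TSC.Mfd_hl n) hU1 hU2 hA h1)
  · intro h1
    exact h.2 (Pool.Agent.TSC.mt_of_closed (Pool.Agent.TSC.Mfd_hl n) hU1 hU2 hB h1)

end Pool.Agent.TSC.DisjointClosed
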