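import Pool.Agent.TSC.Cor

/-!
# TSC/Fin: pieces, multiple boundaries and transfinite filtrations
-/

open Set Topology TopologicalSpace

namespace Pool.Agent.TSC

universe u

variable {X : Type u} [TopologicalSpace X]

theorem mt_of_diff' [T3Space X]
    (hl : ∀ x : X, ∃ V : Set X, IsOpen V ∧ x ∈ V ∧ SecondCountableTopology V) {S T : Set X}
    (hT : Mt T) (h : ∀ O : Set X, IsOpen O → T ⊆ O → Mt (S \ O)) : Mt S := by
  obtain ⟨O, hO1, hO2, hO3⟩ := hT
  exact mt_of_diff hl hO1 hO3 (h O hO1 hO2)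

/-- **Finite unions of locally closed metrizable sets.** -/
theorem mt_pieces [T4Space X] [LocallyCompactSpace X] [LocallyConnectedSpace X]
    (hl : ∀ x : X, ∃ V : Set X, IsOpen V ∧ x ∈ V ∧ SecondCountableTopology V)
    {U : ℕ → Set X} (hU : ∀ k, IsOpen (U k)) (hsep : ∀ x y, x ≠ y → ∃ k, x ∈ U k ∧ y ∉ U k)
    {L : ℕ → Set X} (hL : ∀ i, IsLocallyClosed (L i)) (hm : ∀ i, MetrizableSpace (L i)) :
    ∀ (m : ℕ) (H : Set X), IsClosed H → H ⊆ ⋃ i < m, L i → Mt H := by
  intro m
  induction m with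
  | zero =>
    intro H _ hH
    refine mt_empty.mono ?_
    intro x hx
    have := hH hx
    simp at this
  | succ m ih =>
    intro H hH hc
    have hc' : ∀ x ∈ H, x ∉ L m → x ∈ ⋃ i < m, L i := by
      intro x hx hxL
      obtain ⟨i, hi, hxi⟩ := mem_iUnion₂.1 (hc hx)
      rcases Nat.lt_succ_iff_lt_or_eq.1 hi with h | h
      · exact mem_iUnion₂.2 ⟨i, h, hxi⟩
      · subst h
        exact absurd hxi hxL
    -- the relatively closed piece
    have hL' : IsLocallyClosed (H ∩ L m) := hH.isLocallyClosed.inter (hL m)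
    have hCH : closure (H ∩ L m) ⊆ H := closure_minimal inter_subset_left hH
    have hcb : IsClosed (closure (H ∩ L m) \ (H ∩ L m)) := by
      have h1 : IsOpen (coborder (H ∩ L m)) := hL'.isOpen_coborder
      have h2 : (coborder (H ∩ L m))ᶜ = closure (H ∩ L m) \ (H ∩ L m) := by
        rw [coborder, compl_compl]
      rw [← h2]
      exact h1.isClosed_compl
    have h1 : Mt (closure (H ∩ L m) \ (H ∩ L m)) := by
      apply ih _ hcb
      rintro x ⟨hx1, hx2⟩
      exact hc' x (hCH hx1) fun h => hx2 ⟨hCH hx1, h⟩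
    have h2 : Mt (closure (H ∩ L m)) := by
      refine mt_of_diff' hl h1 fun O hO hO' => ?_
      apply mt_of_closed hl hU hsep (isClosed_closure.sdiff hO)
      refine met_mono ?_ (hm m)
      rintro x ⟨hx1, hx2⟩
      by_contra hx3
      exact hx2 (hO' ⟨hx1, fun h => hx3 h.2⟩)
    refine mt_of_diff' hl h2 fun O hO hO' => ?_
    apply ih _ (hH.sdiff hO)
    rintro x ⟨hx1, hx2⟩
    exact hc' x hx1 fun h => hx2 (hO' (subset_closure ⟨hx1, h⟩))

/-- **Relative boundaries.** -/
theorem mt_relfrontier [T4Space X] [LocallyCompactSpace X] [LocallyConnectedSpace X]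
    (hl : ∀ x : X, ∃ V : Set X, IsOpen V ∧ x ∈ V ∧ SecondCountableTopology V)
    {U : ℕ → Set X} (hU : ∀ k, IsOpen (U k)) (hsep : ∀ x y, x ≠ y → ∃ k, x ∈ U k ∧ y ∉ U k)
    {H : Set X} (hH : IsClosed H) (hm : ∀ k, Mt (closure (H ∩ U k) \ U k)) :
    Mt H := by
  obtain ⟨O, hO1, hO2, hO3⟩ := mt_iUnion hl hm
  refine mt_of_diff hl hO1 hO3 (tame hl hU hsep ?_)
  intro k
  refine ⟨fun _ => (H \ O) ∩ closure (H ∩ U k),
    fun _ => (hH.sdiff hO1).inter isClosed_closure, ?_, ?_⟩
  · rintro _ x ⟨⟨hxH, hxO⟩, hxU⟩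
    by_contra hn
    apply hxO
    exact hO2 (mem_iUnion.2 ⟨k, hxU, hn⟩)
  · rintro x ⟨hx, hxU⟩
    exact mem_iUnion.2 ⟨0, hx, subset_closure ⟨hx.1, hxU⟩⟩

/-- **Multiple boundaries.** -/
theorem mt_multi [T4Space X] [LocallyCompactSpace X] [LocallyConnectedSpace X]
    (hl : ∀ x : X, ∃ V : Set X, IsOpen V ∧ x ∈ V ∧ SecondCountableTopology V)
    {U : ℕ → Set X} (hU : ∀ k, IsOpen (U k)) (hsep : ∀ x y, x ≠ y → ∃ k, x ∈ U k ∧ y ∉ U k)
    {H : Set X} (hH : IsClosed H) (m : ℕ)
    (hm : ∀ s : Finset (Set X), (∀ V ∈ s, V ∈ range U) → s.card = m →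
      MetrizableSpace (H ∩ ⋂ V ∈ s, frontier V : Set X)) : Mt H := by
  by_contra hn
  have key : ∀ j : ℕ, ∃ (s : Finset (Set X)) (F : Set X), (∀ V ∈ s, V ∈ range U) ∧ s.card = j ∧
      IsClosed F ∧ F ⊆ H ∧ (∀ V ∈ s, F ⊆ frontier V) ∧ ¬ Mt F := by
    intro j
    induction j with
    | zero => exact ⟨∅, H, by simp, rfl, hH, Subset.rfl, by simp, hn⟩
    | succ j ih =>
      obtain ⟨s, F, h1, h2, h3, h4, h5, h6⟩ := ih
      have h7 : ∃ k, ¬ Mt (closure (F ∩ U k) \ U k) := by
        by_contra h8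
        push Not at h8
        exact h6 (mt_relfrontier hl hU hsep h3 h8)
      obtain ⟨k, hk⟩ := h7
      have hks : U k ∉ s := by
        intro h8
        apply hk
        refine mt_empty.mono ?_
        have h9 : F ∩ U k = ∅ := by
          rw [eq_empty_iff_forall_notMem]
          rintro x ⟨hx1, hx2⟩
          have := h5 _ h8 hx1
          rw [(hU k).frontier_eq] at this
          exact this.2 hx2
        rw [h9, closure_empty, empty_sdiff]
      classical
      refine ⟨insert (U k) s, closure (F ∩ U k) \ U k, ?_, ?_, ?_, ?_, ?_, hk⟩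
      · intro V hV
        rcases Finset.mem_insert.1 hV with h | h
        · exact ⟨k, h.symm⟩
        · exact h1 V h
      · rw [Finset.card_insert_of_notMem hks, h2]
      · exact isClosed_closure.sdiff (hU k)
      · exact sdiff_subset.trans ((closure_minimal inter_subset_left h3).trans h4)
      · intro V hV
        rcases Finset.mem_insert.1 hV with h | h
        · rw [h, (hU k).frontier_eq]
          exact sdiff_subset_sdiff_left (closure_mono inter_subset_right)
        · exact sdiff_subset.trans ((closure_minimal inter_subset_left h3).trans (h5 V h))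
  obtain ⟨s, F, h1, h2, h3, h4, h5, h6⟩ := key m
  apply h6
  apply mt_of_closed hl hU hsep h3
  exact met_mono (subset_inter h4 (subset_iInter₂ h5)) (hm s h1 h2)

end Pool.Agent.TSC
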