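import Pool.Agent.TSC.Thin

/-!
# TSC/Main: the metrization lemma
-/

open Set Topology TopologicalSpace

namespace Pool.Agent.TSC

universe u

variable {X : Type u} [TopologicalSpace X]

/-- `S` is contained in an open metrizable set. -/
def Mt (S : Set X) : Prop := ∃ O : Set X, IsOpen O ∧ S ⊆ O ∧ MetrizableSpace O

/-- The main lemma: if `S ∩ U k` is contained in an `F_σ` subset of `U k` for all `k`, then `S` is
contained in an open metrizable set. -/
theorem tame [T4Space X] [LocallyCompactSpace X] [LocallyConnectedSpace X]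
    (hl : ∀ x : X, ∃ V : Set X, IsOpen V ∧ x ∈ V ∧ SecondCountableTopology V)
    {U : ℕ → Set X} (hU : ∀ k, IsOpen (U k)) (hsep : ∀ x y, x ≠ y → ∃ k, x ∈ U k ∧ y ∉ U k)
    {S : Set X} (hS : ∀ k, ∃ P : ℕ → Set X, (∀ j, IsClosed (P j)) ∧ (∀ j, P j ⊆ U k) ∧
      S ∩ U k ⊆ ⋃ j, P j) : Mt S := by
  classical
  choose P hPc hPU hSP using hS
  have hf : ∀ p : ℕ × ℕ, ∃ f : C(X, ℝ), EqOn f 0 (P p.1 p.2) ∧ EqOn f 1 (U p.1)ᶜ ∧
      ∀ x, f x ∈ Icc (0 : ℝ) 1 := by
    intro p
    refine exists_continuous_zero_one_of_isClosed (hPc p.1 p.2) (hU p.1).isClosed_compl ?_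
    rw [Set.disjoint_left]
    intro x hx hx'
    exact hx' (hPU p.1 p.2 hx)
  choose f hf0 hf1 hf01 using hf
  let G : Finset (ℕ × ℕ) → Set X := fun Φ => {z | ∀ p ∈ Φ, f p z < 1 / 2}
  have hG : ∀ Φ, IsOpen (G Φ) := by
    intro Φ
    have h1 : G Φ = ⋂ p ∈ Φ, {z | f p z < 1 / 2} := by
      ext z
      simp [G]
    rw [h1]
    exact isOpen_biInter_finset fun p _ => isOpen_lt (f p).continuous continuous_const
  let ι := {q : Finset (ℕ × ℕ) × Set X //
    (∃ x, q.2 = connectedComponentIn (G q.1) x) ∧ SecondCountableTopology q.2}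
  let V : ι → Set X := fun q => q.1.2
  let ℓ : ι → Finset (ℕ × ℕ) := fun q => q.1.1
  have hV : ∀ q, IsOpen (V q) := by
    rintro ⟨⟨Φ, C⟩, ⟨x, hx⟩, hs⟩
    have hx' : C = connectedComponentIn (G Φ) x := hx
    subst hx'
    exact (hG Φ).connectedComponentIn
  have hd : ∀ q q', ℓ q = ℓ q' → q ≠ q' → Disjoint (V q) (V q') := by
    rintro ⟨⟨Φ, C⟩, ⟨x, hx⟩, hs⟩ ⟨⟨Φ', C'⟩, ⟨x', hx'⟩, hs'⟩ he hne
    have he' : Φ = Φ' := he
    subst he'
    have hC : C = connectedComponentIn (G Φ) x := hx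
    have hC' : C' = connectedComponentIn (G Φ) x' := hx'
    rw [Set.disjoint_left]
    intro z hz hz'
    apply hne
    have h1 : z ∈ connectedComponentIn (G Φ) x := by rw [← hC]; exact hz
    have h2 : z ∈ connectedComponentIn (G Φ) x' := by rw [← hC']; exact hz'
    have h3 : C = C' := by
      rw [hC, hC', connectedComponentIn_eq h1, connectedComponentIn_eq h2]
    subst h3
    rfl
  refine ⟨⋃ q, V q, isOpen_iUnion hV, ?_, metrizable_sigma_disjoint V ℓ hV (fun q => q.2.2) hd⟩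
  intro x hx
  obtain ⟨V0, hV0, hxV0, hsV0⟩ := hl x
  obtain ⟨K, hK, hxK, hKV⟩ := exists_compact_subset hV0 hxV0
  have hcl : closure (interior K) ⊆ K := closure_minimal interior_subset hK.isClosed
  have hfr : IsCompact (frontier (interior K)) :=
    hK.of_isClosed_subset isClosed_frontier (frontier_subset_closure.trans hcl)
  have hcov : frontier (interior K) ⊆ ⋃ p ∈ {p : ℕ × ℕ | f p x = 0}, {z | 1 / 2 < f p z} := by
    intro y hy
    have hyx : x ≠ y := by
      rintro rfl
      rw [isOpen_interior.frontier_eq] at hy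
      exact hy.2 hxK
    obtain ⟨k, hk1, hk2⟩ := hsep x y hyx
    obtain ⟨j, hj⟩ := mem_iUnion.1 (hSP k ⟨hx, hk1⟩)
    refine mem_iUnion₂.2 ⟨(k, j), hf0 (k, j) hj, ?_⟩
    have h1 : f (k, j) y = 1 := hf1 (k, j) hk2
    show 1 / 2 < f (k, j) y
    rw [h1]
    norm_num
  obtain ⟨b, hb1, hb2, hb3⟩ := hfr.elim_finite_subcover_image
    (fun p _ => isOpen_lt continuous_const (f p).continuous) hcov
  let Φ : Finset (ℕ × ℕ) := hb2.toFinset
  have hxG : x ∈ G Φ := by
    intro p hp
    have h1 : f p x = 0 := hb1 (hb2.mem_toFinset.1 hp)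
    rw [h1]
    norm_num
  have hCV : connectedComponentIn (G Φ) x ⊆ interior K := by
    refine isPreconnected_connectedComponentIn.subset_left_of_subset_union isOpen_interior
      (isClosed_closure (s := interior K)).isOpen_compl ?_ ?_ ⟨x, mem_connectedComponentIn hxG, hxK⟩
    · rw [Set.disjoint_left]
      intro z hz hz'
      exact hz' (subset_closure hz)
    · intro z hz
      by_contra hz'
      rw [mem_union, not_or, mem_compl_iff, not_not] at hz'
      have h1 : z ∈ frontier (interior K) := by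
        rw [isOpen_interior.frontier_eq]
        exact ⟨hz'.2, hz'.1⟩
      obtain ⟨p, hp, hpz⟩ := mem_iUnion₂.1 (hb3 h1)
      have h2 : f p z < 1 / 2 := connectedComponentIn_subset _ _ hz p (hb2.mem_toFinset.2 hp)
      have h3 : 1 / 2 < f p z := hpz
      exact lt_asymm h2 h3
  refine mem_iUnion.2 ⟨⟨(Φ, connectedComponentIn (G Φ) x), ⟨x, rfl⟩,
    sc_mono (hCV.trans (interior_subset.trans hKV)) hsV0⟩, mem_connectedComponentIn hxG⟩

end Pool.Agent.TSC
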