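import Pool.Agent.TSC.Trans
import Mathlib.Geometry.Manifold.ChartedSpace
import Mathlib.Analysis.InnerProductSpace.PiL2

/-!
# TSC/Mfd: manifolds
-/

open Set Topology TopologicalSpace

namespace Pool.Agent.TSC

universe u

variable {X : Type u} [TopologicalSpace X]

theorem Mfd_cover {𝒰 : Set (Set X)} (hc : 𝒰.Countable) (ho : ∀ U ∈ 𝒰, IsOpen U)
    (hs : ∀ x y : X, x ≠ y → ∃ U ∈ 𝒰, x ∈ U ∧ y ∉ U) :
    ∃ U : ℕ → Set X, (∀ k, IsOpen (U k)) ∧ (∀ x y, x ≠ y → ∃ k, x ∈ U k ∧ y ∉ U k) ∧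
      ∀ V ∈ range U, V = ∅ ∨ V ∈ 𝒰 := by
  obtain ⟨U, hU⟩ := (hc.insert ∅).exists_eq_range ⟨∅, mem_insert _ _⟩
  refine ⟨U, ?_, ?_, ?_⟩
  · intro k
    have h1 : U k ∈ insert ∅ 𝒰 := by rw [hU]; exact ⟨k, rfl⟩
    rcases h1 with h1 | h1
    · rw [h1]
      exact isOpen_empty
    · exact ho _ h1
  · intro x y hxy
    obtain ⟨V, hV, h1, h2⟩ := hs x y hxy
    have h3 : V ∈ range U := by rw [← hU]; exact mem_insert_of_mem _ hV
    obtain ⟨k, rfl⟩ := h3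
    exact ⟨k, h1, h2⟩
  · intro V hV
    rw [← hU] at hV
    exact hV

theorem Mfd_hl (n : ℕ) [ChartedSpace (EuclideanSpace ℝ (Fin n)) X] (x : X) :
    ∃ V : Set X, IsOpen V ∧ x ∈ V ∧ SecondCountableTopology V :=
  ⟨(chartAt (EuclideanSpace ℝ (Fin n)) x).source, (chartAt _ x).open_source, mem_chart_source _ x,
    (chartAt (EuclideanSpace ℝ (Fin n)) x).secondCountableTopology_source⟩

theorem Mfd_lc (n : ℕ) [ChartedSpace (EuclideanSpace ℝ (Fin n)) X] : LocallyCompactSpace X :=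
  ChartedSpace.locallyCompactSpace (EuclideanSpace ℝ (Fin n)) X

theorem Mfd_lcn (n : ℕ) [ChartedSpace (EuclideanSpace ℝ (Fin n)) X] : LocallyConnectedSpace X :=
  ChartedSpace.locallyConnectedSpace (EuclideanSpace ℝ (Fin n)) X

end Pool.Agent.TSC
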