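import Mathlib

/-!
# TSC/Part: open partitions and star-countable covers

Open sets with second countable pieces; metrizability of unions.
-/

open Set Topology TopologicalSpace

namespace Pool.Agent.TSC

universe u v

/-- A disjoint union of metrizable spaces is metrizable. -/
theorem metrizable_sigma {κ : Type v} {E : κ → Type u} [∀ k, TopologicalSpace (E k)]
    [∀ k, MetrizableSpace (E k)] : MetrizableSpace (Σ k, E k) :=
  letI := fun k => metrizableSpaceMetric (E k)
  letI : MetricSpace (Σ k, E k) := Metric.Sigma.metricSpace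
  inferInstance

/-- A space with a partition into open metrizable pieces is metrizable. -/
theorem metrizable_of_partition {X : Type u} [TopologicalSpace X] {κ : Type v} (c : X → κ)
    (hc : ∀ k, IsOpen (c ⁻¹' {k})) (hm : ∀ k, MetrizableSpace (c ⁻¹' {k})) :
    MetrizableSpace X := by
  let f : X → Σ k, (c ⁻¹' {k}) := fun x => ⟨c x, ⟨x, rfl⟩⟩
  let g : (Σ k, (c ⁻¹' {k})) → X := fun p => p.2.1
  have hg : Continuous g := by
    rw [continuous_sigma_iff]
    intro k
    exact continuous_subtype_val
  have hf : Continuous f := by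
    rw [continuous_def]
    intro W hW
    rw [isOpen_sigma_iff] at hW
    let W' : ∀ k, Set (c ⁻¹' {k} : Set X) := fun k =>
      (fun y : (c ⁻¹' {k} : Set X) => (⟨k, y⟩ : Σ k, (c ⁻¹' {k} : Set X))) ⁻¹' W
    have h1 : f ⁻¹' W = ⋃ k, Subtype.val '' (W' k) := by
      ext x
      constructor
      · intro hx
        exact mem_iUnion.2 ⟨c x, ⟨x, rfl⟩, hx, rfl⟩
      · intro hx
        obtain ⟨k, ⟨y, hy⟩, hyW, hyx⟩ := mem_iUnion.1 hx
        subst hyx
        have hk : c y = k := hy
        subst hk
        exact hyW
    rw [h1]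
    exact isOpen_iUnion fun k => (hc k).isOpenMap_subtype_val _ (hW k)
  have hgf : Function.LeftInverse g f := fun x => rfl
  have he : IsEmbedding f := hgf.isEmbedding hg hf
  haveI := metrizable_sigma (E := fun k => (c ⁻¹' {k} : Set X))
  exact he.metrizableSpace

/-- A subset of a second countable subset is second countable. -/
theorem sc_mono {X : Type u} [TopologicalSpace X] {A B : Set X} (h : A ⊆ B)
    (hB : SecondCountableTopology B) : SecondCountableTopology A :=
  (IsEmbedding.inclusion h).secondCountableTopology

/-- Countable unions of open second countable sets are second countable. -/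
theorem sc_iUnion {X : Type u} [TopologicalSpace X] {ι : Type v} [Countable ι] {V : ι → Set X}
    (hV : ∀ i, IsOpen (V i)) (hs : ∀ i, SecondCountableTopology (V i)) :
    SecondCountableTopology (⋃ i, V i : Set X) := by
  let U : ι → Set (⋃ i, V i : Set X) := fun i => Subtype.val ⁻¹' V i
  haveI : ∀ i, SecondCountableTopology (U i) := by
    intro i
    have h1 : IsEmbedding (fun z : U i => (⟨z.1.1, z.2⟩ : V i)) := by
      have h2 : IsEmbedding (fun z : U i => ((z.1 : (⋃ i, V i : Set X)) : X)) :=
        IsEmbedding.subtypeVal.comp IsEmbedding.subtypeVal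
      exact IsEmbedding.of_comp (by fun_prop) continuous_subtype_val h2
    haveI := hs i
    exact h1.secondCountableTopology
  refine secondCountableTopology_of_countable_cover (U := U)
    (fun i => (hV i).preimage continuous_subtype_val) ?_
  apply eq_univ_of_forall
  intro z
  obtain ⟨i, hi⟩ := mem_iUnion.1 z.2
  exact mem_iUnion.2 ⟨i, hi⟩

/-- A star-countable open cover by second countable sets gives an open partition. -/
theorem partition_of_star {X : Type u} [TopologicalSpace X] {ι : Type v} (V : ι → Set X)
    (hV : ∀ i, IsOpen (V i)) (hs : ∀ i, SecondCountableTopology (V i)) (hc : ⋃ i, V i = univ)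
    (hstar : ∀ i, {j | (V i ∩ V j).Nonempty}.Countable) :
    ∃ (κ : Type v) (c : X → κ), ∀ k, IsOpen (c ⁻¹' {k}) ∧
      SecondCountableTopology (c ⁻¹' {k}) := by
  classical
  let r : ι → ι → Prop := fun i j => (V i ∩ V j).Nonempty
  have hsymm : ∀ i j, Relation.ReflTransGen r i j → Relation.ReflTransGen r j i := by
    intro i j h
    induction h with
    | refl => exact Relation.ReflTransGen.refl
    | @tail a b _ hab ih =>
      refine Relation.ReflTransGen.head ?_ ih
      change (V b ∩ V a).Nonempty
      rw [inter_comm]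
      exact hab
  let R : ι → Set ι := fun i => {j | Relation.ReflTransGen r i j}
  have hReq : ∀ i j, Relation.ReflTransGen r i j → R i = R j := by
    intro i j h
    ext k
    exact ⟨fun h1 => (hsymm i j h).trans h1, fun h1 => h.trans h1⟩
  have hRc : ∀ i, (R i).Countable := by
    intro i
    let S : ℕ → Set ι := fun n => Nat.rec {i} (fun _ T => ⋃ j ∈ T, {k | (V j ∩ V k).Nonempty}) n
    have hS : ∀ n, (S n).Countable := by
      intro n
      induction n with
      | zero => exact countable_singleton i
      | succ n ih => exact ih.biUnion fun j _ => hstar j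
    refine (countable_iUnion hS).mono ?_
    intro j hj
    have hj' : Relation.ReflTransGen r i j := hj
    induction hj' with
    | refl => exact mem_iUnion.2 ⟨0, rfl⟩
    | tail h1 h2 ih =>
      obtain ⟨n, hn⟩ := mem_iUnion.1 (ih h1)
      exact mem_iUnion.2 ⟨n + 1, mem_biUnion hn h2⟩
  have hex : ∀ x : X, ∃ i, x ∈ V i := fun x => by
    have h1 : x ∈ ⋃ i, V i := by rw [hc]; trivial
    exact mem_iUnion.1 h1
  choose i₀ hi₀ using hex
  let κ : Type v := Set ι
  let c : X → κ := fun x => R (i₀ x)
  have hcV : ∀ i, ∀ x ∈ V i, c x = R i := by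
    intro i x hx
    exact hReq _ _ (Relation.ReflTransGen.single ⟨x, hi₀ x, hx⟩)
  refine ⟨κ, c, fun k => ⟨?_, ?_⟩⟩
  · rw [isOpen_iff_mem_nhds]
    intro x hx
    refine Filter.mem_of_superset ((hV (i₀ x)).mem_nhds (hi₀ x)) ?_
    intro y hy
    have h1 : c y = c x := hcV _ y hy
    change c y = k
    rw [h1]
    exact hx
  · by_cases hne : (c ⁻¹' {k}).Nonempty
    · obtain ⟨x, hx⟩ := hne
      have hk : R (i₀ x) = k := hx
      have h1 : c ⁻¹' {k} ⊆ ⋃ j : R (i₀ x), V j := by
        intro y hy
        have h2 : R (i₀ y) = k := hy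
        have h3 : i₀ y ∈ R (i₀ x) := by
          rw [hk, ← h2]
          exact Relation.ReflTransGen.refl
        exact mem_iUnion.2 ⟨⟨i₀ y, h3⟩, hi₀ y⟩
      haveI : Countable (R (i₀ x)) := (hRc (i₀ x)).to_subtype
      exact sc_mono h1 (sc_iUnion (fun j => hV j) (fun j => hs j))
    · rw [not_nonempty_iff_eq_empty] at hne
      rw [hne]
      infer_instance

end Pool.Agent.TSC
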