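import Pool.Agent.TSC.Part

/-!
# TSC/Thin: countable unions of open metrizable sets, σ-disjoint covers
-/

open Set Topology TopologicalSpace

namespace Pool.Agent.TSC

universe u v w

/-- The members of a disjoint family of open sets which meet an open second countable set are
countably many. -/
theorem countable_meet {X : Type u} [TopologicalSpace X] {ι : Type v} {C : Set X}
    (hC : SecondCountableTopology C) {W : ι → Set X} (hW : ∀ i, IsOpen (W i))
    {s : Set ι} (hd : ∀ i ∈ s, ∀ j ∈ s, i ≠ j → Disjoint (W i) (W j)) :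
    {i ∈ s | (C ∩ W i).Nonempty}.Countable := by
  have := hC
  have h1 : ({i ∈ s | (C ∩ W i).Nonempty}).PairwiseDisjoint
      (fun i => (Subtype.val ⁻¹' (W i) : Set C)) := by
    intro i hi j hj hij
    have h2 := hd i hi.1 j hj.1 hij
    exact h2.preimage _
  refine h1.countable_of_isOpen (fun i _ => (hW i).preimage continuous_subtype_val) ?_
  rintro i ⟨-, x, hxC, hxW⟩
  exact ⟨⟨x, hxC⟩, hxW⟩

theorem sc_preimage {X : Type u} [TopologicalSpace X] {Y W : Set X}
    (hW : SecondCountableTopology W) :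
    SecondCountableTopology (Subtype.val ⁻¹' W : Set Y) := by
  have h1 : IsEmbedding (fun z : (Subtype.val ⁻¹' W : Set Y) => (⟨z.1.1, z.2⟩ : W)) := by
    have h2 : IsEmbedding (fun z : (Subtype.val ⁻¹' W : Set Y) => ((z.1 : Y) : X)) :=
      IsEmbedding.subtypeVal.comp IsEmbedding.subtypeVal
    exact IsEmbedding.of_comp (by fun_prop) continuous_subtype_val h2
  exact h1.secondCountableTopology

theorem sc_image {X : Type u} [TopologicalSpace X] {Y : Set X} {W : Set Y}
    (hW : SecondCountableTopology W) :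
    SecondCountableTopology (Subtype.val '' W : Set X) := by
  have hmem : ∀ z : (Subtype.val '' W : Set X), ∃ h : z.1 ∈ Y, (⟨z.1, h⟩ : Y) ∈ W := by
    rintro ⟨x, ⟨y, hy⟩, hyW, rfl⟩
    exact ⟨hy, hyW⟩
  have h1 : IsEmbedding (fun z : (Subtype.val '' W : Set X) =>
      (⟨⟨z.1, (hmem z).choose⟩, (hmem z).choose_spec⟩ : W)) := by
    have h2 : IsEmbedding (fun z : (Subtype.val '' W : Set X) => (z : X)) :=
      IsEmbedding.subtypeVal
    exact IsEmbedding.of_comp (g := fun z : W => ((z : Y) : X)) (by fun_prop) (by fun_prop) h2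
  exact h1.secondCountableTopology

theorem met_mono {X : Type u} [TopologicalSpace X] {A B : Set X} (h : A ⊆ B)
    (hB : MetrizableSpace B) : MetrizableSpace A :=
  (IsEmbedding.inclusion h).metrizableSpace

/-- The union of a σ-disjoint family of open second countable sets is metrizable. -/
theorem metrizable_sigma_disjoint {X : Type u} [TopologicalSpace X] [T3Space X] {ι : Type v}
    {Λ : Type w} [Countable Λ] (V : ι → Set X) (ℓ : ι → Λ) (hV : ∀ i, IsOpen (V i))
    (hs : ∀ i, SecondCountableTopology (V i))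
    (hd : ∀ i j, ℓ i = ℓ j → i ≠ j → Disjoint (V i) (V j)) :
    MetrizableSpace (⋃ i, V i : Set X) := by
  let Y : Set X := ⋃ i, V i
  let W : ι → Set Y := fun i => Subtype.val ⁻¹' V i
  have hWo : ∀ i, IsOpen (W i) := fun i => (hV i).preimage continuous_subtype_val
  have hWs : ∀ i, SecondCountableTopology (W i) := fun i => sc_preimage (hs i)
  have hWc : ⋃ i, W i = univ := by
    apply eq_univ_of_forall
    intro z
    obtain ⟨i, hi⟩ := mem_iUnion.1 z.2
    exact mem_iUnion.2 ⟨i, hi⟩
  have hstar : ∀ i, {j | (W i ∩ W j).Nonempty}.Countable := by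
    intro i
    have h1 : {j | (W i ∩ W j).Nonempty} ⊆
        ⋃ m : Λ, {j ∈ {j | ℓ j = m} | (W i ∩ W j).Nonempty} := by
      intro j hj
      exact mem_iUnion.2 ⟨ℓ j, rfl, hj⟩
    refine (countable_iUnion fun m => ?_).mono h1
    refine countable_meet (hWs i) hWo ?_
    intro a ha b hb hab
    exact (hd a b (ha.trans hb.symm) hab).preimage _
  obtain ⟨κ, c, hc⟩ := partition_of_star W hWo hWs hWc hstar
  refine metrizable_of_partition c (fun k => (hc k).1) (fun k => ?_)
  have := (hc k).2
  exact metrizableSpace_of_t3_secondCountable _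

/-- A locally finite family: only countably many members meet a given second countable set. -/
theorem countable_meet_lf {X : Type u} [TopologicalSpace X] {ι : Type v} {C : Set X}
    (hC : SecondCountableTopology C) {W : ι → Set X} (hW : LocallyFinite W) :
    {i | (C ∩ W i).Nonempty}.Countable := by
  have := hC
  have h0 : ∀ x : C, ∃ t ∈ 𝓝 (x : X), {i | (W i ∩ t).Nonempty}.Finite := fun x => hW x
  choose t ht hfin using h0
  obtain ⟨s, hs, hcov⟩ := TopologicalSpace.countable_cover_nhds
    (f := fun x : C => (Subtype.val ⁻¹' t x : Set C))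
    (fun x => continuous_subtype_val.continuousAt.preimage_mem_nhds (ht x))
  refine (hs.biUnion fun x _ => (hfin x).countable).mono ?_
  rintro i ⟨y, hyC, hyW⟩
  have h1 : (⟨y, hyC⟩ : C) ∈ ⋃ x ∈ s, (Subtype.val ⁻¹' t x : Set C) := by
    rw [hcov]
    trivial
  obtain ⟨x, hx, hyx⟩ := mem_iUnion₂.1 h1
  exact mem_iUnion₂.2 ⟨x, hx, y, hyW, hyx⟩

/-- A metrizable locally second countable space has a partition into open second countable
pieces. -/
theorem partition_of_metrizable {X : Type u} [TopologicalSpace X] [MetrizableSpace X]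
    (hl : ∀ x : X, ∃ V : Set X, IsOpen V ∧ x ∈ V ∧ SecondCountableTopology V) :
    ∃ (κ : Type u) (c : X → κ), ∀ k, IsOpen (c ⁻¹' {k}) ∧
      SecondCountableTopology (c ⁻¹' {k}) := by
  let _ := metrizableSpaceMetric X
  choose V hV hx hs using hl
  obtain ⟨v, hv, hvc, hvl, hvs⟩ := precise_refinement V hV
    (eq_univ_of_forall fun x => mem_iUnion.2 ⟨x, hx x⟩)
  exact partition_of_star v hv (fun i => sc_mono (hvs i) (hs i)) hvc
    (fun i => countable_meet_lf (sc_mono (hvs i) (hs i)) hvl)

/-- Open metrizable subsets of a locally second countable space. -/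
theorem exists_disjoint_pieces {X : Type u} [TopologicalSpace X]
    (hl : ∀ x : X, ∃ V : Set X, IsOpen V ∧ x ∈ V ∧ SecondCountableTopology V) {O : Set X}
    (hO : IsOpen O) (hm : MetrizableSpace O) :
    ∃ (κ : Type u) (W : κ → Set X), (∀ k, IsOpen (W k)) ∧ (∀ k, SecondCountableTopology (W k)) ∧
      (∀ k k', k ≠ k' → Disjoint (W k) (W k')) ∧ ⋃ k, W k = O := by
  have hl' : ∀ x : O, ∃ V : Set O, IsOpen V ∧ x ∈ V ∧ SecondCountableTopology V := by
    intro x
    obtain ⟨V, h1, h2, h3⟩ := hl x
    exact ⟨Subtype.val ⁻¹' V, h1.preimage continuous_subtype_val, h2, sc_preimage h3⟩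
  obtain ⟨κ, c, hc⟩ := partition_of_metrizable hl'
  refine ⟨κ, fun k => Subtype.val '' (c ⁻¹' {k}), fun k => hO.isOpenMap_subtype_val _ (hc k).1,
    fun k => sc_image (hc k).2, ?_, ?_⟩
  · intro k k' hkk'
    rw [Set.disjoint_left]
    rintro _ ⟨x, hx, rfl⟩ ⟨x', hx', hxx'⟩
    have h1 : x' = x := Subtype.ext hxx'
    rw [h1] at hx'
    have h2 : c x = k := hx
    have h3 : c x = k' := hx'
    exact hkk' (h2.symm.trans h3)
  · ext x
    constructor
    · intro hx
      obtain ⟨k, y, -, rfl⟩ := mem_iUnion.1 hx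
      exact y.2
    · intro hx
      exact mem_iUnion.2 ⟨c ⟨x, hx⟩, ⟨x, hx⟩, rfl, rfl⟩

/-- Countable unions of open metrizable sets are metrizable. -/
theorem metrizable_iUnion {X : Type u} [TopologicalSpace X] [T3Space X]
    (hl : ∀ x : X, ∃ V : Set X, IsOpen V ∧ x ∈ V ∧ SecondCountableTopology V) {Λ : Type w}
    [Countable Λ] {O : Λ → Set X}
    (hO : ∀ n, IsOpen (O n)) (hm : ∀ n, MetrizableSpace (O n)) :
    MetrizableSpace (⋃ n, O n : Set X) := by
  choose κ W h1 h2 h3 h4 using fun n => exists_disjoint_pieces hl (hO n) (hm n)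
  have h5 : MetrizableSpace (⋃ i : (Σ n, κ n), W i.1 i.2 : Set X) := by
    refine metrizable_sigma_disjoint (fun i : (Σ n, κ n) => W i.1 i.2) (fun i => i.1)
      (fun i => h1 _ _) (fun i => h2 _ _) ?_
    rintro ⟨n, k⟩ ⟨n', k'⟩ he hne
    have he' : n = n' := he
    subst he'
    exact h3 n k k' fun h => hne (by rw [h])
  have h6 : (⋃ i : (Σ n, κ n), W i.1 i.2 : Set X) = ⋃ n, O n := by
    ext x
    constructor
    · intro hx
      obtain ⟨⟨n, k⟩, hk⟩ := mem_iUnion.1 hx
      refine mem_iUnion.2 ⟨n, ?_⟩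
      rw [← h4 n]
      exact mem_iUnion.2 ⟨k, hk⟩
    · intro hx
      obtain ⟨n, hn⟩ := mem_iUnion.1 hx
      rw [← h4 n] at hn
      obtain ⟨k, hk⟩ := mem_iUnion.1 hn
      exact mem_iUnion.2 ⟨⟨n, k⟩, hk⟩
  rwa [h6] at h5

theorem metrizable_union {X : Type u} [TopologicalSpace X] [T3Space X]
    (hl : ∀ x : X, ∃ V : Set X, IsOpen V ∧ x ∈ V ∧ SecondCountableTopology V) {O O' : Set X}
    (hO : IsOpen O) (hO' : IsOpen O') (hm : MetrizableSpace O) (hm' : MetrizableSpace O') :
    MetrizableSpace (O ∪ O' : Set X) := by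
  have h1 : MetrizableSpace (⋃ b : Bool, (cond b O O') : Set X) :=
    metrizable_iUnion hl (fun b => by cases b <;> assumption) (fun b => by cases b <;> assumption)
  have h2 : (⋃ b : Bool, (cond b O O') : Set X) = O ∪ O' := union_eq_iUnion.symm
  rwa [h2] at h1

end Pool.Agent.TSC
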