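import Pool.Agent.TSC.Fin

/-!
# TSC/Trans: transfinite filtrations of countable length in countably paracompact spaces
-/

open Set Topology TopologicalSpace

namespace Pool.Agent.TSC

universe u

variable {X : Type u} [TopologicalSpace X]

/-- **Transfinite filtrations** of countable length. -/
theorem mt_filtration_ord [T4Space X] [LocallyCompactSpace X] [LocallyConnectedSpace X]
    (hl : ∀ x : X, ∃ V : Set X, IsOpen V ∧ x ∈ V ∧ SecondCountableTopology V)
    {U : ℕ → Set X} (hU : ∀ k, IsOpen (U k)) (hsep : ∀ x y, x ≠ y → ∃ k, x ∈ U k ∧ y ∉ U k)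
    (hcp : CtblyParacompact X) (γ : Ordinal.{0}) :
    (Set.Iio γ).Countable → ∀ H : Ordinal.{0} → Set X, (∀ α, IsClosed (H α)) → Antitone H →
      (∀ δ ≤ γ, Order.IsSuccLimit δ → ⋂ α < δ, H α ⊆ H δ) →
      (∀ α < γ, MetrizableSpace (H α \ H (α + 1) : Set X)) → H γ = ∅ → Mt (H 0) := by
  induction γ using WellFoundedLT.induction with
  | ind γ ih =>
    intro hγ H hc ha hlim hm he
    rcases Ordinal.zero_or_succ_or_isSuccLimit γ with h0 | ⟨δ, hδ⟩ | hl'
    · rw [h0] at he
      rw [he]
      exact mt_empty
    · have hδγ : δ < γ := by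
        rw [← hδ]
        exact Order.lt_succ δ
      have hδ1 : H (δ + 1) = ∅ := by
        rw [← he, ← hδ, Order.succ_eq_add_one]
      -- the last nonempty set is metrizable
      have h1 : Mt (H δ) := by
        apply mt_of_closed hl hU hsep (hc δ)
        have h2 := hm δ hδγ
        refine met_mono ?_ h2
        rw [hδ1, sdiff_empty]
      refine mt_of_diff' hl h1 fun O hO hHO => ?_
      refine ih δ hδγ (hγ.mono (Iio_subset_Iio hδγ.le)) (fun α => H α \ O)
        (fun α => (hc α).sdiff hO) (fun a b hab => sdiff_subset_sdiff_left (ha hab)) ?_ ?_ ?_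
      · intro ε hε hεl x hx
        have h3 : ∀ α < ε, x ∈ H α \ O := fun α hα => mem_iInter₂.1 hx α hα
        have h4 : (0 : Ordinal.{0}) < ε := by
          rw [pos_iff_ne_zero]
          rintro rfl
          exact Ordinal.not_isSuccLimit_zero hεl
        refine ⟨hlim ε (hε.trans hδγ.le) hεl (mem_iInter₂.2 fun α hα => (h3 α hα).1), (h3 0 h4).2⟩
      · intro α hα
        refine met_mono ?_ (hm α (hα.trans hδγ))
        rintro x ⟨⟨h3, h4⟩, h5⟩
        exact ⟨h3, fun h6 => h5 ⟨h6, h4⟩⟩
      · rw [sdiff_eq_empty]
        exact hHO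
    · -- the limit case
      have hγ0 : (0 : Ordinal.{0}) < γ := by
        rw [pos_iff_ne_zero]
        rintro rfl
        exact Ordinal.not_isSuccLimit_zero hl'
      have hne : (Iio γ).Nonempty := ⟨0, hγ0⟩
      obtain ⟨a, haR⟩ := hγ.exists_eq_range hne
      have haγ : ∀ n, a n < γ := by
        intro n
        have : a n ∈ Iio γ := by rw [haR]; exact ⟨n, rfl⟩
        exact this
      obtain ⟨b, hb0, hbs⟩ : ∃ b : ℕ → Ordinal.{0}, b 0 = a 0 ∧ ∀ n, b (n + 1) = max (b n) (a (n + 1)) :=
        ⟨fun n => Nat.rec (a 0) (fun m S => max S (a (m + 1))) n, rfl, fun n => rfl⟩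
      have hbγ : ∀ n, b n < γ := by
        intro n
        induction n with
        | zero => rw [hb0]; exact haγ 0
        | succ n ihn => rw [hbs]; exact max_lt ihn (haγ _)
      have hba : ∀ n, a n ≤ b n := by
        intro n
        cases n with
        | zero => rw [hb0]
        | succ n => rw [hbs]; exact le_max_right _ _
      have hbm : Monotone b := monotone_nat_of_le_succ fun n => by
        rw [hbs]
        exact le_max_left _ _
      have hempty : ⋂ n, H (b n) = ∅ := by
        rw [eq_empty_iff_forall_notMem]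
        intro x hx
        have h1 : x ∈ H γ := by
          apply hlim γ le_rfl hl'
          refine mem_iInter₂.2 fun α hα => ?_
          have h2 : α ∈ range a := by rw [← haR]; exact hα
          obtain ⟨n, hn⟩ := h2
          rw [← hn]
          exact ha (hba n) (mem_iInter.1 hx n)
        rw [he] at h1
        exact h1
      obtain ⟨W, hW1, hW2, hW3⟩ := cp_expand hcp (fun n => hc (b n))
        (fun n m hnm => ha (hbm hnm)) hempty
      have h1 : ∀ n, Mt (H 0 \ W n) := by
        intro n
        refine ih (b n) (hbγ n) (hγ.mono (Iio_subset_Iio (hbγ n).le)) (fun α => H α \ W n)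
          (fun α => (hc α).sdiff (hW1 n)) (fun a b hab => sdiff_subset_sdiff_left (ha hab)) ?_ ?_ ?_
        · intro ε hε hεl x hx
          have h3 : ∀ α < ε, x ∈ H α \ W n := fun α hα => mem_iInter₂.1 hx α hα
          have h4 : (0 : Ordinal.{0}) < ε := by
            rw [pos_iff_ne_zero]
            rintro rfl
            exact Ordinal.not_isSuccLimit_zero hεl
          exact ⟨hlim ε (hε.trans (hbγ n).le) hεl (mem_iInter₂.2 fun α hα => (h3 α hα).1),
            (h3 0 h4).2⟩
        · intro α hα
          refine met_mono ?_ (hm α (hα.trans (hbγ n)))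
          rintro x ⟨⟨h3, h4⟩, h5⟩
          exact ⟨h3, fun h6 => h5 ⟨h6, h4⟩⟩
        · rw [sdiff_eq_empty]
          exact hW2 n
      refine (mt_iUnion hl h1).mono ?_
      intro x hx
      by_contra hn
      have h3 : x ∈ ⋂ i, closure (W i) := by
        refine mem_iInter.2 fun n => subset_closure ?_
        by_contra h4
        exact hn (mem_iUnion.2 ⟨n, hx, h4⟩)
      rw [hW3] at h3
      exact h3

end Pool.Agent.TSC
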